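import Mathlib.SetTheory.Cardinal.Finite
import Mathlib.Algebra.MvPolynomial.Basic
import Mathlib.Combinatorics.SimpleGraph.Connectivity.Connected

set_option autoImplicit false

namespace Pool.Agent.MP_f8284b_co

open MvPolynomial

/-- The rank `|W| - k(A)` of a set `A` of edges of the multigraph with vertex set `W`, edge set `ε`
and end map `ends`; `k(A)` is the number of components of the spanning subgraph `(W, A)`. -/
noncomputable def rk {W ε : Type} [Fintype W] (ends : ε → Sym2 W) (A : Finset ε) : ℕ :=
  Fintype.card W - Nat.card (SimpleGraph.fromEdgeSet (ends '' (A : Set ε))).ConnectedComponent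

/-- The Tutte polynomial of a finite multigraph (loops and parallel edges allowed). -/
noncomputable def tutte {W ε : Type} [Fintype W] [Fintype ε] (ends : ε → Sym2 W) :
    MvPolynomial (Fin 2) ℤ :=
  ∑ A : Finset ε, (X 0 - 1) ^ (rk ends Finset.univ - rk ends A) * (X 1 - 1) ^ (A.card - rk ends A)

open Classical in
/-- Every finite multigraph without isolated vertices and with the same Tutte polynomial as the
simple graph `G` is isomorphic to `G`. -/
def TutteUnique {n : ℕ} (G : SimpleGraph (Fin n)) : Prop :=
  ∀ (W ε : Type) [Fintype W] [Fintype ε] (ends : ε → Sym2 W), (∀ w, ∃ a, w ∈ ends a) →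
    tutte ends = tutte (Subtype.val : G.edgeSet → Sym2 (Fin n)) →
    ∃ (e : Fin n ≃ W) (f : G.edgeSet ≃ ε), ∀ a, ends (f a) = Sym2.map e a

end Pool.Agent.MP_f8284b_co
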