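import Pool.Agent.MP_f8284b_co.LP

set_option autoImplicit false

namespace Pool.Agent.MP_f8284b_co

open Finset SimpleGraph Classical Sum

/-- The vertices: isolated vertices and five blocks. -/
abbrev Vx (z h : ℕ) : Type :=
  Fin z ⊕ Fin (8 * h) ⊕ Fin (11 * h) ⊕ Fin (16 * h) ⊕ Fin (2 * h) ⊕ Fin (2 * h)

variable {z h : ℕ}

/-- The block of a vertex. -/
def cl : Vx z h → ℕ
  | inl _ => 0
  | inr (inl _) => 1
  | inr (inr (inl _)) => 2
  | inr (inr (inr (inl _))) => 3
  | inr (inr (inr (inr (inl _)))) => 4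
  | inr (inr (inr (inr (inr _)))) => 5

/-- The position of a vertex in its block. -/
def ix : Vx z h → ℕ
  | inl i => i
  | inr (inl i) => i
  | inr (inr (inl i)) => i
  | inr (inr (inr (inl i))) => i
  | inr (inr (inr (inr (inl i)))) => i
  | inr (inr (inr (inr (inr i)))) => i

/-- Adjacency in terms of blocks and positions. -/
def rel (h : ℕ) (B : ℕ → ℕ → Prop) (c i d j : ℕ) : Prop :=
  (c = 1 ∧ d = 2 ∧ 2 * h ≤ i + j + 1) ∨ (c = 2 ∧ d = 2) ∨ (c = 3 ∧ d = 3) ∨
  (c = 2 ∧ d = 3 ∧ ¬ (i < 2 * h ∧ j < 2 * h ∧ B i j)) ∨ (c = 4 ∧ d = 3 ∧ 2 * h ≤ i + j + 1) ∨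
  (c = 4 ∧ d = 5 ∧ i = j)

/-- The sparse graph that encodes the matrix `B`. -/
def FB (z h : ℕ) (B : ℕ → ℕ → Prop) : SimpleGraph (Vx z h) :=
  fromRel fun u v => rel h B (cl u) (ix u) (cl v) (ix v)

/-- The degrees. -/
def dv (h c i : ℕ) : ℕ :=
  if c = 0 then 0 else if c = 1 then 9 * h + min (i + 1) (2 * h)
  else if c = 2 then (if i < 2 * h then 32 * h + i else 35 * h - 1)
  else if c = 3 then (if i < 2 * h then 26 * h + i else 29 * h - 1)
  else if c = 4 then 14 * h + i + 2 else 1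

/-- All rows and columns have `h` entries. -/
def Reg (h : ℕ) (B : ℕ → ℕ → Prop) : Prop :=
  (∀ i < 2 * h, ((range (2 * h)).filter fun j => B i j).card = h) ∧
  (∀ j < 2 * h, ((range (2 * h)).filter fun i => B i j).card = h)

theorem cnt (N : ℕ) (p : ℕ → Prop) [DecidablePred p] [DecidablePred fun i : Fin N => p i] :
    (univ.filter fun i : Fin N => p i).card = ((range N).filter p).card := by
  simp only [card_filter]
  convert Fin.sum_univ_eq_sum_range (fun i => if p i then 1 else 0) N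

theorem cnt_ge (N c : ℕ) (p : Fin N → Prop) [DecidablePred p] (hp : ∀ i, p i ↔ c ≤ i) :
    (univ.filter p).card = N - c := by
  rw [filter_congr (q := fun i : Fin N => c ≤ i) fun i _ => hp i, cnt N (c ≤ ·), range_eq_Ico,
    Ico_filter_le]
  simp

theorem cnt_lt (N c : ℕ) (p : Fin N → Prop) [DecidablePred p] (hp : ∀ i, p i ↔ i < c) :
    (univ.filter p).card = min N c := by
  rw [filter_congr (q := fun i : Fin N => i < c) fun i _ => hp i, cnt N (· < c), range_eq_Ico,
    Ico_filter_lt]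
  simp

theorem cnt_ne {N : ℕ} (i : Fin N) : ∑ x, (if i = x then 0 else 1) = N - 1 := by
  have : ∑ x, ((if i = x then 0 else 1) + if i = x then 1 else 0) = ∑ _x : Fin N, 1 :=
    sum_congr rfl fun x _ => by split_ifs <;> rfl
  rw [sum_add_distrib] at this
  simp only [sum_ite_eq, mem_univ, if_true, sum_const, card_univ, Fintype.card_fin, smul_eq_mul,
    mul_one] at this
  omega

theorem cnt_B (N h : ℕ) (hN : 2 * h ≤ N) (q : ℕ → Prop) (c : Prop)
    (hq : c → ((range (2 * h)).filter q).card = h) (p : Fin N → Prop) [DecidablePred p]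
    (hp : ∀ x, p x ↔ (c → x < 2 * h → ¬ q x)) :
    (univ.filter p).card = if c then N - h else N := by
  split_ifs with hc
  · have a1 := card_filter_add_card_filter_not (s := univ) p
    have a2 : (univ.filter fun x => ¬ p x).card = h := by
      rw [filter_congr (q := fun x : Fin N => x < 2 * h ∧ q x) fun x _ => by simp [hp, hc],
        cnt N (fun x => x < 2 * h ∧ q x)]
      refine Eq.trans ?_ (hq hc)
      congr 1
      ext x
      simp only [mem_filter, mem_range]
      exact ⟨fun a => a.2, fun a => ⟨by omega, a⟩⟩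
    simp only [card_univ, Fintype.card_fin] at a1
    omega
  · rw [filter_true_of_mem fun x _ => (hp x).2 fun a => absurd a hc]
    simp

theorem dg_FB {B : ℕ → ℕ → Prop} (hB : Reg h B) (v : Vx z h) :
    dg (FB z h B) v = dv h (cl v) (ix v) := by
  rw [dg, card_filter]
  simp only [Fintype.sum_sum_type]
  rcases v with i | i | i | i | i | i <;> have hi := i.2 <;> simp [FB, rel, cl, ix, dv]
  · rw [cnt_ge _ (2 * h - 1 - i) _ fun x => by omega]
    omega
  · rw [cnt_ge _ (2 * h - 1 - i) _ fun x => by omega, cnt_ne,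
      cnt_B _ h (by omega) (B i) (i < 2 * h) (hB.1 i) _ fun x => Iff.rfl]
    split_ifs <;> omega
  · rw [cnt_ge _ (2 * h - 1 - i) (fun x : Fin (2 * h) => 2 * h ≤ x + i + 1) fun x => by omega,
      cnt_ne, cnt_B _ h (by omega) (B · i) (i < 2 * h) (hB.2 i) _ fun x => by tauto]
    split_ifs <;> omega
  · rw [cnt_ge _ (2 * h - 1 - i) _ fun x => by omega]
    simp only [Fin.val_inj, filter_eq, mem_univ, if_true, card_singleton]
    omega
  · simp only [Fin.val_inj, filter_eq', mem_univ, if_true, card_singleton]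

/-- The dual weight of a degree sum. -/
def psi (h s : ℕ) : ℕ :=
  if 14 * h + 3 ≤ s ∧ s ≤ 16 * h + 2 then 154 * h + 5
  else if (46 * h + 2 ≤ s ∧ s ≤ 51 * h) ∨ (58 * h ≤ s ∧ s + 2 ≤ 64 * h) then 2 else 2 * s + 2

/-- The dual weight of a vertex. -/
def theta (h c i : ℕ) : ℕ :=
  if c = 0 then 154 * h + 6 else if c = 1 then 86 * h
  else if c = 4 then 84 * h + 2 else if c = 5 then 70 * h + 3 else if i < 2 * h then 1 else 0

/-- The pairs that the dual certificate leaves open. -/
def Free (h c i d j : ℕ) : Prop :=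
  (c = 2 ∧ d = 3 ∧ i < 2 * h ∧ j < 2 * h) ∨ (c = 3 ∧ d = 2 ∧ i < 2 * h ∧ j < 2 * h) ∨
  (c = 4 ∧ d = 5) ∨ (c = 5 ∧ d = 4)

theorem signs (B : ℕ → ℕ → Prop) (u v : Vx z h) (huv : u ≠ v) :
    (Free h (cl u) (ix u) (cl v) (ix v) →
      psi h (dv h (cl u) (ix u) + dv h (cl v) (ix v)) =
        theta h (cl u) (ix u) + theta h (cl v) (ix v)) ∧
    (¬ Free h (cl u) (ix u) (cl v) (ix v) → (FB z h B).Adj u v →
      theta h (cl u) (ix u) + theta h (cl v) (ix v) <
        psi h (dv h (cl u) (ix u) + dv h (cl v) (ix v))) ∧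
    (¬ Free h (cl u) (ix u) (cl v) (ix v) → ¬ (FB z h B).Adj u v →
      psi h (dv h (cl u) (ix u) + dv h (cl v) (ix v)) <
        theta h (cl u) (ix u) + theta h (cl v) (ix v)) := by
  simp only [FB, fromRel_adj, huv, ne_eq, not_false_eq_true, true_and]
  rcases u with i | i | i | i | i | i <;> rcases v with j | j | j | j | j | j <;>
    have hi := i.2 <;> have hj := j.2 <;>
    simp only [rel, cl, ix, dv, Free, theta, psi] <;> norm_num <;>
    (try split_ifs) <;> omega

end Pool.Agent.MP_f8284b_co
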