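import Pool.Agent.MP_f8284b_co.Levels

set_option autoImplicit false

namespace Pool.Agent.MP_f8284b_co

open Finset SimpleGraph Classical

variable {U V W : Type} [Fintype U] [Fintype V] [Fintype W]

theorem dg_iso {F : SimpleGraph V} {F' : SimpleGraph W} (e : F ≃g F') (v : V) :
    dg F' (e v) = dg F v := by
  simp only [dg, card_filter]
  refine (Fintype.sum_equiv e.toEquiv _ _ fun u => ?_).symm
  simp [e.map_rel_iff]

/-- The set contains no edge. -/
def Ind (F : SimpleGraph V) (S : Finset V) : Prop := ∀ u ∈ S, ∀ v ∈ S, ¬ F.Adj u v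

omit [Fintype V] in
theorem ind_iff (F : SimpleGraph V) (S : Finset V) : Fᶜ.IsClique (S : Set V) ↔ Ind F S := by
  constructor
  · intro h u hu v hv a
    exact (h hu hv a.ne).2 a
  · intro h u hu v hv hne
    exact ⟨hne, h u hu v hv⟩

theorem Inv.of_iso {F : SimpleGraph V} {F' : SimpleGraph W} (e : F ≃g F') : Inv F F' := by
  refine ⟨fun ψ => ?_, fun ψ => ?_, fun s => ?_⟩
  · exact Fintype.sum_equiv e.toEquiv _ _ fun u => by rw [← dg_iso e]; rfl
  · refine Fintype.sum_equiv e.toEquiv _ _ fun u => Fintype.sum_equiv e.toEquiv _ _ fun v => ?_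
    rw [← dg_iso e u, ← dg_iso e v]
    simp [e.map_rel_iff]
  · simp only [cliq, card_filter, ind_iff]
    refine Fintype.sum_equiv e.toEquiv.finsetCongr _ _ fun S => ?_
    have : Ind F' (e.toEquiv.finsetCongr S) ↔ Ind F S := by
      simp only [Ind, Equiv.finsetCongr_apply, forall_mem_map]
      simp [e.map_rel_iff]
    simp only [this]
    simp

theorem Inv.symm {F : SimpleGraph V} {F' : SimpleGraph W} (h : Inv F F') : Inv F' F :=
  ⟨fun ψ => (h.hD ψ).symm, fun ψ => (h.hE ψ).symm, fun s => (h.hI s).symm⟩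

theorem Inv.trans {F : SimpleGraph U} {F' : SimpleGraph V} {F'' : SimpleGraph W} (h : Inv F F')
    (h' : Inv F' F'') : Inv F F'' :=
  ⟨fun ψ => (h.hD ψ).trans (h'.hD ψ), fun ψ => (h.hE ψ).trans (h'.hE ψ),
    fun s => (h.hI s).trans (h'.hI s)⟩

theorem Inv.exists_equiv {F : SimpleGraph V} {F' : SimpleGraph W} (h : Inv F F') :
    ∃ e : V ≃ W, ∀ v, dg F' (e v) = dg F v := by
  have : ∀ d, Nonempty ({v // dg F v = d} ≃ {w // dg F' w = d}) := by
    intro d
    have := h.hD (fun k => if k = d then 1 else 0)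
    simp only [sum_boole, Nat.cast_inj] at this
    exact ⟨Fintype.equivOfCardEq (by rw [Fintype.card_subtype, Fintype.card_subtype, this])⟩
  exact ⟨Equiv.ofFiberEquiv fun d => (this d).some, fun v => Equiv.ofFiberEquiv_map _ v⟩

theorem sum_adj_theta (F : SimpleGraph V) (θ : V → ℚ) :
    ∑ u, ∑ v, (if F.Adj u v then θ u + θ v else 0) = 2 * ∑ u, dg F u * θ u := by
  have e : ∑ u, ∑ v, (if F.Adj u v then θ u else 0) = ∑ u, dg F u * θ u :=
    sum_congr rfl fun u _ => by rw [← sum_filter, sum_const, nsmul_eq_mul, dg]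
  have e' : ∑ u, ∑ v, (if F.Adj u v then θ v else 0) = ∑ u, dg F u * θ u := by
    rw [sum_comm]
    simp only [F.adj_comm]
    simpa only [F.adj_comm] using e
  rw [two_mul]
  nth_rewrite 1 [← e]
  rw [← e']
  simp only [← sum_add_distrib]
  refine sum_congr rfl fun u _ => sum_congr rfl fun v _ => ?_
  split_ifs <;> simp

/-- Complementary slackness: a dual certificate fixes all pairs with nonzero reduced weight. -/
theorem lp {F F' : SimpleGraph V} (h : Inv F F') (hd : ∀ v, dg F' v = dg F v) (ψ : ℕ → ℕ)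
    (θ : V → ℕ) (h1 : ∀ u v, F.Adj u v → θ u + θ v ≤ ψ (dg F u + dg F v))
    (h2 : ∀ u v, ¬ F.Adj u v → u ≠ v → ψ (dg F u + dg F v) ≤ θ u + θ v) (u v : V)
    (h3 : u ≠ v → ψ (dg F u + dg F v) ≠ θ u + θ v) : F'.Adj u v ↔ F.Adj u v := by
  by_cases huv : u = v
  · simp [huv]
  have a1 := h.hE (fun k => ψ k)
  have a2 := sum_adj_theta F (fun v => θ v)
  have a3 := sum_adj_theta F' (fun v => θ v)
  simp only [hd] at a1 a3
  let t : V → V → ℚ := fun u v =>
    ((if F.Adj u v then (ψ (dg F u + dg F v) : ℚ) else 0) -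
      (if F.Adj u v then (θ u : ℚ) + θ v else 0)) -
    ((if F'.Adj u v then (ψ (dg F u + dg F v) : ℚ) else 0) -
      (if F'.Adj u v then (θ u : ℚ) + θ v else 0))
  have t0 : ∑ u, ∑ v, t u v = 0 := by
    simp only [t, sum_sub_distrib]
    rw [a1, a2, a3, sub_self]
  have t1 : ∀ u v, 0 ≤ t u v := by
    intro u v
    simp only [t]
    split_ifs with a b b
    · simp
    · have : ((θ u + θ v : ℕ) : ℚ) ≤ ψ (dg F u + dg F v) := by exact_mod_cast h1 u v a
      push_cast at this
      linarith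
    · have : (ψ (dg F u + dg F v) : ℚ) ≤ (θ u + θ v : ℕ) := by exact_mod_cast h2 u v a b.ne
      push_cast at this
      linarith
    · simp
  have t2 := (sum_eq_zero_iff_of_nonneg (fun v _ => t1 u v)).1
    ((sum_eq_zero_iff_of_nonneg (fun u _ => sum_nonneg fun v _ => t1 u v)).1 t0 u (mem_univ _)) v
    (mem_univ _)
  have t3 : (ψ (dg F u + dg F v) : ℚ) ≠ θ u + θ v := by exact_mod_cast h3 huv
  simp only [t] at t2
  split_ifs at t2 with a b b
  · simp [a, b]
  · exact absurd (by linarith) t3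
  · exact absurd (by linarith) t3
  · simp [a, b]

theorem card_nbr_eq {F F' : SimpleGraph V} (v : V) (hd : dg F' v = dg F v) (T : Finset V)
    (h : ∀ u, u ∉ T → (F'.Adj v u ↔ F.Adj v u)) :
    (T.filter (F'.Adj v)).card = (T.filter (F.Adj v)).card := by
  have a1 := dg_split F T v
  have a2 := dg_split F' T v
  rw [filter_congr (s := Tᶜ) fun u hu => h u (mem_compl.1 hu)] at a2
  omega

section ip

variable {R : Type} [CommRing R]

/-- The independence polynomial of the subgraph induced on `N`, evaluated at `x`. -/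
noncomputable def ip (F : SimpleGraph V) (x : R) (N : Finset V) : R :=
  ∑ S ∈ N.powerset, if Ind F S then x ^ S.card else 0

theorem ip_univ (F : SimpleGraph V) (x : R) :
    ip F x univ = ∑ s ∈ range (Fintype.card V + 1), cliq Fᶜ s * x ^ s := by
  rw [ip, powerset_univ, ← sum_fiberwise_of_maps_to (s := univ) (t := range (Fintype.card V + 1))
    (g := card) (fun S _ => mem_range.2 (Nat.lt_succ_of_le (card_le_univ S)))]
  refine sum_congr rfl fun s _ => ?_
  rw [← sum_filter, filter_filter, sum_congr rfl (g := fun _ => x ^ s)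
    (fun S hS => by rw [(mem_filter.1 hS).2.1]), sum_const, nsmul_eq_mul]
  simp only [cliq, ind_iff]

theorem Inv.ip_eq {F F' : SimpleGraph V} (h : Inv F F') (x : R) : ip F x univ = ip F' x univ := by
  simp only [ip_univ, h.hI]

omit [Fintype V] in
theorem ip_empty (F : SimpleGraph V) (x : R) : ip F x ∅ = 1 := by
  simp [ip, Ind]

omit [Fintype V] in
theorem ip_insert [DecidableEq V] (F : SimpleGraph V) (x : R) {N M : Finset V} {v : V}
    (hv : v ∉ N) (hM : ∀ w, w ∈ M ↔ w ∈ N ∧ ¬ F.Adj v w) :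
    ip F x (insert v N) = ip F x N + x * ip F x M := by
  have e : M.powerset = N.powerset.filter fun S => ∀ w ∈ S, ¬ F.Adj v w := by
    ext S
    simp only [mem_powerset, subset_iff, hM, mem_filter]
    exact ⟨fun h => ⟨fun _ a => (h a).1, fun _ a => (h a).2⟩, fun h _ a => ⟨h.1 a, h.2 _ a⟩⟩
  unfold ip
  rw [sum_powerset_insert hv, e, sum_filter, mul_sum]
  congr 1
  refine sum_congr rfl fun S hS => ?_
  have hS' : v ∉ S := fun a => hv (mem_powerset.1 hS a)
  have : Ind F (insert v S) ↔ (∀ w ∈ S, ¬ F.Adj v w) ∧ Ind F S := by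
    simp only [Ind, mem_insert, forall_eq_or_imp, F.irrefl, not_false_eq_true, true_and]
    exact ⟨fun h => ⟨h.1, fun a ha => (h.2 a ha).2⟩,
      fun h => ⟨h.1, fun a ha => ⟨fun b => h.1 a ha b.symm, h.2 a ha⟩⟩⟩
  rw [card_insert_of_notMem hS', this]
  by_cases a : ∀ w ∈ S, ¬ F.Adj v w <;> by_cases b : Ind F S <;> simp [a, b, pow_succ']

omit [Fintype V] in
theorem ip_isolated [DecidableEq V] (F : SimpleGraph V) (x : R) (I N : Finset V)
    (hd : Disjoint I N) (h : ∀ v ∈ I, ∀ w ∈ I ∪ N, ¬ F.Adj v w) :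
    ip F x (I ∪ N) = (1 + x) ^ I.card * ip F x N := by
  induction I using Finset.induction_on with
  | empty => simp
  | insert v I hv ih =>
    rw [disjoint_insert_left] at hd
    rw [insert_union] at h
    rw [insert_union, ip_insert F x (M := I ∪ N) (by simp [hv, hd.1])
      (fun w => (and_iff_left_of_imp fun hw =>
        h v (mem_insert_self _ _) w (mem_insert_of_mem hw)).symm),
      ih hd.2 fun a ha w hw => h a (mem_insert_of_mem ha) w (mem_insert_of_mem hw),
      card_insert_of_notMem hv]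
    ring

omit [Fintype V] in
theorem ip_matching {ι : Type} [DecidableEq V] [DecidableEq ι] (F : SimpleGraph V) (x : R)
    (a p : ι → V) (ha : Function.Injective a) (hp : Function.Injective p) (hap : ∀ s t, a s ≠ p t)
    (h1 : ∀ s t, F.Adj (a s) (p t) ↔ s = t) (h2 : ∀ s t, ¬ F.Adj (a s) (a t))
    (h3 : ∀ s t, ¬ F.Adj (p s) (p t)) (T : Finset ι) :
    ip F x (T.image a ∪ T.image p) = (1 + 2 * x) ^ T.card := by
  induction T using Finset.induction_on with
  | empty => simp [ip_empty]
  | insert t T ht ih =>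
    have e : (insert t T).image a ∪ (insert t T).image p =
        insert (a t) (insert (p t) (T.image a ∪ T.image p)) := by
      ext w
      simp only [image_insert, mem_union, mem_insert]
      tauto
    have n1 : a t ∉ T.image a ∪ T.image p := by
      simp [ha.eq_iff, ht, (hap _ _).symm]
    have n2 : p t ∉ T.image a ∪ T.image p := by
      simp [hp.eq_iff, ht, hap]
    have m1 : ∀ w ∈ T.image a ∪ T.image p, ¬ F.Adj (a t) w := by
      simp only [mem_union, mem_image]
      rintro w (⟨s, -, rfl⟩ | ⟨s, hs, rfl⟩)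
      · exact h2 _ _
      · exact fun b => ht ((h1 _ _).1 b ▸ hs)
    have m2 : ∀ w ∈ T.image a ∪ T.image p, ¬ F.Adj (p t) w := by
      simp only [mem_union, mem_image]
      rintro w (⟨s, hs, rfl⟩ | ⟨s, -, rfl⟩)
      · exact fun b => ht ((h1 _ _).1 b.symm ▸ hs)
      · exact h3 _ _
    rw [e, ip_insert F x (M := T.image a ∪ T.image p) (by simp [hap, n1]),
      ip_insert F x (M := T.image a ∪ T.image p) n2
        (fun w => (and_iff_left_of_imp (m2 w)).symm), ih, card_insert_of_notMem ht]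
    · ring
    · intro w
      rw [mem_insert]
      constructor
      · exact fun hw => ⟨Or.inr hw, m1 w hw⟩
      · rintro ⟨rfl | hw, b⟩
        · exact absurd ((h1 _ _).2 rfl) b
        · exact hw

theorem ip_pair (F : SimpleGraph V) (x : R) {u v : V} (huv : u ≠ v) (ha : ¬ F.Adj u v)
    (N : Finset V) (hN : ∀ w, w ∈ N ↔ w ≠ u ∧ w ≠ v ∧ ¬ F.Adj u w ∧ ¬ F.Adj v w) :
    ∑ S : Finset V, (if u ∈ S ∧ v ∈ S ∧ Ind F S then x ^ S.card else 0) = x ^ 2 * ip F x N := by
  rw [ip, ← sum_filter, ← sum_filter, mul_sum]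
  symm
  refine sum_bij' (fun S _ => insert u (insert v S)) (fun S _ => (S.erase u).erase v)
    ?_ ?_ ?_ ?_ ?_
  · intro S hS
    obtain ⟨h1, h2⟩ := mem_filter.1 hS
    have h3 := fun w (hw : w ∈ S) => (hN w).1 (mem_powerset.1 h1 hw)
    refine mem_filter.2 ⟨mem_univ _, by simp, by simp, ?_⟩
    simp only [Ind, mem_insert, forall_eq_or_imp, F.irrefl, not_false_eq_true, true_and]
    exact ⟨⟨ha, fun w hw => (h3 w hw).2.2.1⟩, ⟨fun b => ha b.symm, fun w hw => (h3 w hw).2.2.2⟩,
      fun w hw => ⟨fun b => (h3 w hw).2.2.1 b.symm, fun b => (h3 w hw).2.2.2 b.symm, h2 w hw⟩⟩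
  · intro S hS
    obtain ⟨h1, h2, h3⟩ := (mem_filter.1 hS).2
    refine mem_filter.2 ⟨mem_powerset.2 fun w hw => ?_, fun a ha b hb =>
      h3 a (mem_of_mem_erase (mem_of_mem_erase ha)) b (mem_of_mem_erase (mem_of_mem_erase hb))⟩
    simp only [mem_erase] at hw
    exact (hN w).2 ⟨hw.2.1, hw.1, h3 _ h1 _ hw.2.2, h3 _ h2 _ hw.2.2⟩
  · intro S hS
    have h3 := fun w (hw : w ∈ S) => (hN w).1 (mem_powerset.1 (mem_filter.1 hS).1 hw)
    have a1 : v ∉ S := fun b => (h3 v b).2.1 rfl
    have a2 : u ∉ insert v S := by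
      rw [mem_insert, not_or]
      exact ⟨huv, fun b => (h3 u b).1 rfl⟩
    rw [erase_insert a2, erase_insert a1]
  · intro S hS
    obtain ⟨h1, h2, -⟩ := (mem_filter.1 hS).2
    rw [insert_erase (mem_erase.2 ⟨huv.symm, h2⟩), insert_erase h1]
  · intro S hS
    have h3 := fun w (hw : w ∈ S) => (hN w).1 (mem_powerset.1 (mem_filter.1 hS).1 hw)
    have a1 : v ∉ S := fun b => (h3 v b).2.1 rfl
    have a2 : u ∉ insert v S := by
      rw [mem_insert, not_or]
      exact ⟨huv, fun b => (h3 u b).1 rfl⟩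
    rw [card_insert_of_notMem a2, card_insert_of_notMem a1]
    ring

end ip

open Polynomial in
/-- The products `u ^ a * (2 u - 1) ^ b` are independent for coefficients in `{0, 1}`. -/
theorem decode (m z : ℕ) (B B' : ℕ → ℕ → Prop)
    (h : ∀ x : ℚ[X],
      ∑ i ∈ range m, ∑ j ∈ range m, (if B i j then
        x ^ 2 * ((1 + x) ^ (z + (m - 1 - i) + (j + 1)) * (1 + 2 * x) ^ (m - 1 - j)) else 0) =
      ∑ i ∈ range m, ∑ j ∈ range m, (if B' i j then
        x ^ 2 * ((1 + x) ^ (z + (m - 1 - i) + (j + 1)) * (1 + 2 * x) ^ (m - 1 - j)) else 0)) :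
    ∀ j < m, ∀ i < m, (B i j ↔ B' i j) := by
  have h0 := h (C (1 / 2) * (X - 1))
  have e : (1 + 2 * (C (1 / 2) * (X - 1)) : ℚ[X]) = X := by
    have : (2 : ℚ[X]) * C (1 / 2) = 1 := by
      rw [← map_ofNat C 2, ← map_mul]
      norm_num
    rw [← mul_assoc, this]
    ring
  rw [e] at h0
  simp only [← mul_assoc _ _ (X ^ _ : ℚ[X])] at h0
  suffices H : ∀ k j, j + k + 1 = m → ∀ i < m, (B i j ↔ B' i j) from
    fun j hj => H (m - 1 - j) j (by omega)
  intro k
  induction k using Nat.strong_induction_on with | h k ih => ?_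
  intro j hj
  have h1 := congrArg (fun p => coeff p k) (sub_eq_zero.2 h0)
  simp only [← sum_sub_distrib, finsetSum_coeff, coeff_zero] at h1
  have h2 : ∀ i ∈ range m, ∑ j' ∈ range m, coeff ((if B i j' then
      C (1 / 2 : ℚ) * (X - 1) * (C (1 / 2) * (X - 1)) *
        (1 + C (1 / 2) * (X - 1)) ^ (z + (m - 1 - i) + (j' + 1)) * X ^ (m - 1 - j') else 0) -
      (if B' i j' then C (1 / 2 : ℚ) * (X - 1) * (C (1 / 2) * (X - 1)) *
        (1 + C (1 / 2) * (X - 1)) ^ (z + (m - 1 - i) + (j' + 1)) * X ^ (m - 1 - j') else 0)) k =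
      (1 / 2) ^ (z + m + j + 2) * ((if B i j then 2 ^ i else 0) - (if B' i j then 2 ^ i else 0)) := by
    intro i hi
    rw [mem_range] at hi
    rw [sum_eq_single j]
    · have : coeff (C (1 / 2 : ℚ) * (X - 1) * (C (1 / 2) * (X - 1)) *
          (1 + C (1 / 2) * (X - 1)) ^ (z + (m - 1 - i) + (j + 1)) * X ^ (m - 1 - j)) k =
          (1 / 2) ^ (z + m + j + 2) * 2 ^ i := by
        rw [coeff_mul_X_pow', if_pos (by omega), show k - (m - 1 - j) = 0 by omega,
          coeff_zero_eq_eval_zero,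
          show z + m + j + 2 = 2 + (z + (m - 1 - i) + (j + 1)) + i by omega]
        generalize z + (m - 1 - i) + (j + 1) = a
        rw [pow_add, pow_add, mul_assoc _ _ (2 ^ i), ← mul_pow]
        simp only [eval_mul, eval_C, eval_sub, eval_X, eval_one, eval_pow, eval_add]
        norm_num
      rw [coeff_sub, apply_ite (fun p => coeff p k), apply_ite (fun p => coeff p k), this]
      split_ifs <;> simp
    · intro j' hj' hne
      rw [mem_range] at hj'
      rcases lt_or_gt_of_ne hne with c | c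
      · rw [coeff_sub, apply_ite (fun p => coeff p k), apply_ite (fun p => coeff p k),
          coeff_mul_X_pow', if_neg (show ¬ m - 1 - j' ≤ k by omega)]
        simp
      · rw [if_congr (ih (m - 1 - j') (by omega) j' (by omega) i hi) rfl rfl, sub_self, coeff_zero]
    · intro hj'
      exact absurd (mem_range.2 (by omega)) hj'
  simp only [sq] at h1
  rw [sum_congr rfl h2, ← mul_sum, mul_eq_zero, sum_sub_distrib, sub_eq_zero, ← sum_filter,
    ← sum_filter] at h1
  have h3 : ∑ i ∈ (range m).filter (B · j), 2 ^ i = ∑ i ∈ (range m).filter (B' · j), 2 ^ i := by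
    exact_mod_cast h1.resolve_left (by positivity)
  have h4 := Finset.geomSum_injective le_rfl h3
  intro i hi
  simpa [hi] using Finset.ext_iff.1 h4 i

end Pool.Agent.MP_f8284b_co
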