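import Pool.Agent.MP_f8284b_co.Simple

set_option autoImplicit false

namespace Pool.Agent.MP_f8284b_co

open Finset SimpleGraph Classical

variable {V W : Type} [Fintype V] [Fintype W]

/-- The degree of a vertex. -/
noncomputable def dg (G : SimpleGraph V) (v : V) : ℕ := (univ.filter (G.Adj v)).card

theorem dg_eq (G : SimpleGraph V) (v : V) : dg G v = G.degree v := by
  rw [dg, degree, neighborFinset_eq_filter]

theorem dg_compl (G : SimpleGraph V) (v : V) : dg G v + dg Gᶜ v + 1 = Fintype.card V := by
  have : ∑ u, (((if G.Adj v u then 1 else 0) + (if G.Adj v u ∨ v = u then 0 else 1)) +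
      if v = u then 1 else 0) = ∑ _u : V, 1 := by
    refine sum_congr rfl fun u _ => ?_
    by_cases a : G.Adj v u
    · simp [a, a.ne]
    · by_cases b : v = u <;> simp [a, b]
  simp only [sum_add_distrib, sum_ite_eq, mem_univ, if_true, sum_const, card_univ, smul_eq_mul,
    mul_one] at this
  rw [← this, dg, dg, card_filter, card_filter]
  congr 2
  refine sum_congr rfl fun u _ => ?_
  by_cases a : G.Adj v u <;> by_cases b : v = u <;> simp [a, b]

theorem gcut_eq (G : SimpleGraph V) (S : Finset V) :
    gcut G S = ∑ u ∈ S, (Sᶜ.filter (G.Adj u)).card := by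
  simp only [gcut, card_filter, sum_product]

theorem dg_split (G : SimpleGraph V) (S : Finset V) (u : V) :
    dg G u = (S.filter (G.Adj u)).card + (Sᶜ.filter (G.Adj u)).card := by
  simp only [dg, card_filter]
  rw [sum_add_sum_compl]

theorem gcut_le (G : SimpleGraph V) (S : Finset V) {Δ : ℕ} (h : ∀ v, dg G v ≤ Δ) :
    gcut G S ≤ S.card * Δ := by
  rw [gcut_eq, ← smul_eq_mul]
  exact sum_le_card_nsmul _ _ _ fun u _ => by have := dg_split G S u; have := h u; omega

theorem gcut_compl_set (G : SimpleGraph V) (S : Finset V) : gcut G Sᶜ = gcut G S := by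
  simp only [gcut, card_filter, sum_product, compl_compl]
  rw [sum_comm]
  simp only [G.adj_comm]

theorem gcut_add (G : SimpleGraph V) (S : Finset V) :
    gcut G S + gcut Gᶜ S = S.card * (Fintype.card V - S.card) := by
  rw [← card_compl, ← card_product,
    ← card_filter_add_card_filter_not (s := S ×ˢ Sᶜ) (fun p => G.Adj p.1 p.2)]
  unfold gcut
  congr 2
  ext p
  simp only [mem_filter, mem_product, mem_compl, compl_adj, and_congr_right_iff,
    and_iff_right_iff_imp]
  exact fun hp _ e => hp.2 (e ▸ hp.1)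

theorem gcut_single (G : SimpleGraph V) (v : V) : gcut G {v} = dg G v := by
  rw [gcut_eq, sum_singleton, dg_split G {v} v]
  simp [filter_singleton]

/-- Twice the indicator of adjacency. -/
noncomputable def adj2 (G : SimpleGraph V) (u v : V) : ℕ := if G.Adj u v then 2 else 0

theorem gcut_pair (G : SimpleGraph V) {u v : V} (h : u ≠ v) :
    gcut G {u, v} + adj2 G u v = dg G u + dg G v := by
  rw [adj2, gcut_eq, sum_pair h, dg_split G {u, v} u, dg_split G {u, v} v]
  by_cases a : G.Adj u v
  · simp [filter_insert, filter_singleton, a, a.symm]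
    omega
  · have a' : ¬ G.Adj v u := fun b => a b.symm
    simp [filter_insert, filter_singleton, a, a']

/-- Lower bound for cuts of a graph whose complement has small degrees. -/
theorem gcut_ge (G : SimpleGraph V) {Δ : ℕ} (h : ∀ v, dg Gᶜ v ≤ Δ) (S : Finset V) (k : ℕ)
    (h1 : k ≤ S.card) (h2 : k + S.card ≤ Fintype.card V) (hn : 2 * Δ + 2 * k ≤ Fintype.card V) :
    k * (Fintype.card V - k) ≤ gcut G S + k * Δ := by
  have key : ∀ T : Finset V, k ≤ T.card → 2 * T.card ≤ Fintype.card V →
      k * (Fintype.card V - k) ≤ gcut G T + k * Δ := by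
    intro T a1 a2
    have b1 := gcut_add G T
    have b2 := gcut_le Gᶜ T h
    obtain ⟨a, ha⟩ := Nat.exists_eq_add_of_le a1
    obtain ⟨m, hm⟩ : ∃ m, Fintype.card V = 2 * k + a + Δ + m := ⟨Fintype.card V - (2 * k + a + Δ), by omega⟩
    have e1 : Fintype.card V - k = k + a + Δ + m := by omega
    have e2 : Fintype.card V - T.card = k + Δ + m := by omega
    rw [e2, ha] at b1
    rw [ha] at b2
    rw [e1]
    nlinarith [Nat.zero_le (a * m)]
  by_cases hS : 2 * S.card ≤ Fintype.card V
  · exact key S h1 hS
  · rw [← gcut_compl_set]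
    have := card_compl S
    exact key _ (by omega) (by omega)

theorem gcut_le' (G : SimpleGraph V) (S : Finset V) :
    gcut G S ≤ S.card * (Fintype.card V - S.card) := by
  have := gcut_add G S
  omega

/-- A function of the cut size supported on the `k`-th level only sees `k`-sets and their
complements. -/
theorem sum_level (G : SimpleGraph V) (φ : ℕ → ℚ) (k : ℕ) (hk : 2 * k < Fintype.card V)
    (h : ∀ S : Finset V, φ (gcut G S) ≠ 0 → S.card = k ∨ S.card + k = Fintype.card V) :
    ∑ S : Finset V, φ (gcut G S) = 2 * ∑ S ∈ powersetCard k univ, φ (gcut G S) := by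
  have e1 : ∑ S : Finset V, φ (gcut G S) =
      ∑ S : Finset V, (if S.card = k then φ (gcut G S) else 0) +
        ∑ S : Finset V, (if Sᶜ.card = k then φ (gcut G Sᶜ) else 0) := by
    rw [← sum_add_distrib]
    refine sum_congr rfl fun S _ => ?_
    have := card_compl S
    have := card_le_univ S
    rw [gcut_compl_set]
    by_cases h0 : φ (gcut G S) = 0
    · simp [h0]
    · rcases h S h0 with e | e
      · rw [if_pos e, if_neg (by omega), add_zero]
      · rw [if_neg (by omega), if_pos (by omega), zero_add]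
  have e2 : ∑ S : Finset V, (if Sᶜ.card = k then φ (gcut G Sᶜ) else 0) =
      ∑ S : Finset V, (if S.card = k then φ (gcut G S) else 0) :=
    Fintype.sum_bijective compl compl_bijective _ _ fun _ => rfl
  rw [e1, e2, ← two_mul, ← sum_filter]
  congr 2
  ext S
  simp

theorem sum_pairs (f : Finset V → ℚ) :
    2 * ∑ S ∈ powersetCard 2 univ, f S = ∑ u, ∑ v, if u = v then 0 else f {u, v} := by
  have e1 : ∑ u, ∑ v, (if u = v then 0 else f {u, v}) =
      ∑ p ∈ (univ : Finset V).offDiag, f {p.1, p.2} := by
    have : (univ : Finset V).offDiag = (univ ×ˢ univ).filter fun p => p.1 ≠ p.2 := by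
      ext p
      simp
    rw [← sum_product', this, sum_filter]
    refine sum_congr rfl fun p _ => ?_
    by_cases h : p.1 = p.2 <;> simp [h]
  rw [e1, ← sum_fiberwise_of_maps_to (s := (univ : Finset V).offDiag) (t := powersetCard 2 univ)
    (g := fun p => {p.1, p.2}), mul_sum]
  · refine sum_congr rfl fun S hS => ?_
    obtain ⟨a, b, hab, rfl⟩ := card_eq_two.1 (mem_powersetCard.1 hS).2
    have : ((univ : Finset V).offDiag.filter fun p => ({p.1, p.2} : Finset V) = {a, b}) =
        {(a, b), (b, a)} := by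
      ext ⟨u, v⟩
      simp only [mem_filter, mem_offDiag, mem_univ, true_and, mem_insert, mem_singleton,
        Prod.mk.injEq]
      constructor
      · rintro ⟨hne, e⟩
        have e' : ({u, v} : Set V) = {a, b} := by
          have := congrArg (fun s : Finset V => (s : Set V)) e
          simpa using this
        exact Set.pair_eq_pair_iff.1 e'
      · rintro (⟨rfl, rfl⟩ | ⟨rfl, rfl⟩)
        · exact ⟨hab, rfl⟩
        · exact ⟨hab.symm, pair_comm _ _⟩
    rw [this, sum_pair (by simp [hab]), pair_comm b a, two_mul]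
  · intro p hp
    exact mem_powersetCard.2 ⟨subset_univ _, card_pair (mem_offDiag.1 hp).2.2⟩

/-- A test function supported on the first level of cut sizes. -/
def lv1 (n : ℕ) (ψ : ℕ → ℚ) (c : ℕ) : ℚ := if 0 < c ∧ c + 1 ≤ n then ψ (n - 1 - c) else 0

/-- A test function supported on the second level of cut sizes. -/
def lv2 (n : ℕ) (χ : ℕ → ℚ) (c : ℕ) : ℚ := if n ≤ c ∧ c + 4 ≤ 2 * n then χ (2 * n - 4 - c) else 0

section level

variable (G : SimpleGraph V) {Δ : ℕ} (h : ∀ v, dg Gᶜ v ≤ Δ) (hn : 3 * Δ + 6 ≤ Fintype.card V)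
include h hn

theorem cut_cases (S : Finset V) :
    gcut G S = 0 ∨
    ((S.card = 1 ∨ S.card + 1 = Fintype.card V) ∧ Fintype.card V ≤ gcut G S + Δ + 1 ∧
      gcut G S + 1 ≤ Fintype.card V) ∨
    ((S.card = 2 ∨ S.card + 2 = Fintype.card V) ∧ Fintype.card V ≤ gcut G S ∧
      gcut G S + 4 ≤ 2 * Fintype.card V) ∨ 2 * Fintype.card V < gcut G S + 4 := by
  have a0 := gcut_le' G S
  have a1 := gcut_ge G h S 1
  have a2 := gcut_ge G h S 2
  have a3 := gcut_ge G h S 3
  have a4 := card_le_univ S
  by_cases c0 : S.card = 0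
  · rw [c0] at a0
    omega
  by_cases c0' : S.card = Fintype.card V
  · rw [c0', Nat.sub_self] at a0
    omega
  by_cases c1 : S.card = 1
  · rw [c1] at a0
    omega
  by_cases c1' : S.card + 1 = Fintype.card V
  · rw [show Fintype.card V - S.card = 1 by omega] at a0
    omega
  by_cases c2 : S.card = 2
  · rw [c2] at a0
    omega
  by_cases c2' : S.card + 2 = Fintype.card V
  · rw [show Fintype.card V - S.card = 2 by omega] at a0
    omega
  omega

theorem level_one (ψ : ℕ → ℚ) :
    ∑ S : Finset V, lv1 (Fintype.card V) ψ (gcut G S) = 2 * ∑ v, ψ (dg Gᶜ v) := by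
  rw [sum_level G _ 1 (by omega), powersetCard_one, sum_map]
  · congr 1
    refine sum_congr rfl fun v _ => ?_
    have := dg_compl G v
    have := h v
    simp only [Function.Embedding.coeFn_mk, gcut_single, lv1]
    rw [if_pos (by omega)]
    congr 1
    omega
  · intro S hS
    have := cut_cases G h hn S
    have : 0 < gcut G S ∧ gcut G S + 1 ≤ Fintype.card V := by
      by_contra hc
      exact hS (if_neg hc)
    omega

theorem level_two (χ : ℕ → ℚ) :
    ∑ S : Finset V, lv2 (Fintype.card V) χ (gcut G S) =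
      ∑ u, ∑ v, if u = v then 0 else χ (dg Gᶜ u + dg Gᶜ v - adj2 Gᶜ u v) := by
  rw [sum_level G _ 2 (by omega), sum_pairs]
  · refine sum_congr rfl fun u _ => sum_congr rfl fun v _ => ?_
    by_cases huv : u = v
    · simp [huv]
    · have a1 := gcut_add G {u, v}
      have a2 := gcut_pair Gᶜ huv
      have a3 := h u
      have a4 := h v
      rw [card_pair huv] at a1
      simp only [if_neg huv, lv2]
      rw [if_pos (by omega)]
      congr 1
      omega
  · intro S hS
    have := cut_cases G h hn S
    have : Fintype.card V ≤ gcut G S ∧ gcut G S + 4 ≤ 2 * Fintype.card V := by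
      by_contra hc
      exact hS (if_neg hc)
    omega

end level

theorem card_of_min_degree (G : SimpleGraph V) {δ : ℕ} (h : ∀ v, δ ≤ dg G v) (h1 : grk G < 2 * δ)
    (h2 : 0 < grk G) : Fintype.card V = grk G + 1 := by
  have a1 : ∑ _C : G.ConnectedComponent, δ ≤ grk G := by
    rw [← sum_fib]
    refine sum_le_sum fun C _ => ?_
    induction C using ConnectedComponent.ind with | h v => ?_
    have := degree_le_fib G v
    have := h v
    rw [dg_eq] at this
    omega
  rw [sum_const, card_univ, smul_eq_mul, ← Nat.card_eq_fintype_card] at a1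
  have a2 := card_cc_le G
  have a3 : Nat.card G.ConnectedComponent < 2 := by
    by_contra hc
    have := Nat.mul_le_mul_right δ (not_lt.1 hc)
    omega
  have a4 : 0 < Nat.card G.ConnectedComponent := by
    have : Nonempty V := Fintype.card_pos_iff.1 (by unfold grk at h2; omega)
    have : Nonempty G.ConnectedComponent := ⟨G.connectedComponentMk this.some⟩
    exact Nat.card_pos
  unfold grk at *
  omega

/-- The data of a graph that the Tutte polynomial of its complement determines. -/
structure Inv (F : SimpleGraph V) (F' : SimpleGraph W) : Prop where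
  hD : ∀ ψ : ℕ → ℚ, ∑ v, ψ (dg F v) = ∑ v, ψ (dg F' v)
  hE : ∀ ψ : ℕ → ℚ, ∑ u, ∑ v, (if F.Adj u v then ψ (dg F u + dg F v) else 0) =
    ∑ u, ∑ v, (if F'.Adj u v then ψ (dg F' u + dg F' v) else 0)
  hI : ∀ s, cliq Fᶜ s = cliq F'ᶜ s

/-- A discrete antiderivative with step two. -/
def anti (ψ : ℕ → ℚ) : ℕ → ℚ
  | 0 => 0
  | 1 => 0
  | (z + 2) => anti ψ z - ψ (z + 2)

theorem pair_sum (F : SimpleGraph V) (ψ : ℕ → ℚ) :
    ∑ u, ∑ v, (if F.Adj u v then ψ (dg F u + dg F v) else 0) =
      (∑ u, ∑ v, if u = v then 0 else anti ψ (dg F u + dg F v - adj2 F u v)) -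
      ∑ u, ∑ v, anti ψ (dg F u + dg F v) + ∑ u, anti ψ (2 * dg F u) := by
  have e : ∑ u, anti ψ (2 * dg F u) = ∑ u, ∑ v, if u = v then anti ψ (2 * dg F u) else 0 := by
    simp
  rw [e]
  simp only [← sum_sub_distrib, ← sum_add_distrib]
  refine sum_congr rfl fun u _ => sum_congr rfl fun v _ => ?_
  by_cases huv : u = v
  · simp [huv, two_mul]
  · by_cases a : F.Adj u v
    · have := gcut_pair F huv
      rw [adj2, if_pos a] at this
      simp only [adj2, if_pos a, if_neg huv, ← this, anti]
      simp
    · simp [adj2, a, huv]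

theorem inv_of_tutte {ε ε' : Type} [Fintype ε] [Fintype ε'] {ends : ε → Sym2 V}
    {ends' : ε' → Sym2 W} (ht : tutte ends = tutte ends') (hs : IsSimple ends) {Δ : ℕ}
    (h : ∀ v, dg (gr ends)ᶜ v ≤ Δ) (hn : 3 * Δ + 6 ≤ Fintype.card V)
    (hi : ∀ w, ∃ a, w ∈ ends' a) : Inv (gr ends)ᶜ (gr ends')ᶜ := by
  have hs' := simple_of_tutte ht hs
  have d1 := gcut_dist ht hs (fun c => if 0 < c ∧ c + Δ + 1 < Fintype.card V then 1 else 0)
  rw [sum_eq_zero (fun S _ => if_neg (by have := cut_cases _ h hn S; omega)), mul_zero] at d1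
  have d2 := (sum_eq_zero_iff_of_nonneg (fun S _ => by split_ifs <;> norm_num)).1
    ((mul_eq_zero.1 d1.symm).resolve_left (by positivity))
  have m' : ∀ w, Fintype.card V - Δ - 1 ≤ dg (gr ends') w := by
    intro w
    have a1 := d2 {w} (mem_univ _)
    have a2 : 0 < dg (gr ends') w := by
      obtain ⟨a, ha⟩ := hi w
      obtain ⟨u, hu⟩ := Sym2.mem_iff_exists.1 ha
      have := hs'.2 a
      rw [hu] at this
      exact card_pos.2 ⟨u, mem_filter.2 ⟨mem_univ _, ⟨a, hu⟩, by simpa using this⟩⟩
    rw [gcut_single] at a1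
    by_contra hc
    rw [if_pos (by omega)] at a1
    norm_num at a1
  have m : ∀ v, Fintype.card V - Δ - 1 ≤ dg (gr ends) v := fun v => by
    have := dg_compl (gr ends) v
    have := h v
    omega
  have r1 : grk (gr ends) = grk (gr ends') := by
    have := rk_univ_eq ht
    simp only [rk, coe_univ, Set.image_univ] at this
    exact this
  have r2 : grk (gr ends) < Fintype.card V := by
    have : Nonempty V := Fintype.card_pos_iff.1 (by omega)
    have : Nonempty (gr ends).ConnectedComponent := ⟨(gr ends).connectedComponentMk this.some⟩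
    have : 0 < Nat.card (gr ends).ConnectedComponent := Nat.card_pos
    unfold grk
    omega
  have r3 : 0 < grk (gr ends) := by
    have : Nonempty V := Fintype.card_pos_iff.1 (by omega)
    have a1 := degree_le_fib (gr ends) this.some
    have a2 := fib_le (gr ends) ((gr ends).connectedComponentMk this.some)
    have a3 := m this.some
    rw [dg_eq] at a3
    omega
  have c1 := card_of_min_degree _ m (by omega) r3
  have c2 := card_of_min_degree _ m' (by omega) (by omega)
  have hc : Fintype.card V = Fintype.card W := by omega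
  have h' : ∀ w, dg (gr ends')ᶜ w ≤ Δ := fun w => by
    have := dg_compl (gr ends') w
    have := m' w
    omega
  have dist : ∀ φ : ℕ → ℚ, ∑ S : Finset V, φ (gcut (gr ends) S) =
      ∑ S : Finset W, φ (gcut (gr ends') S) := fun φ => by
    have := gcut_dist ht hs φ
    rw [hc] at this
    exact mul_left_cancel₀ (by positivity) this
  have hD : ∀ ψ : ℕ → ℚ, ∑ v, ψ (dg (gr ends)ᶜ v) = ∑ v, ψ (dg (gr ends')ᶜ v) := fun ψ => by
    have a1 := level_one _ h hn ψ
    have a2 := level_one _ h' (hc ▸ hn) ψ
    rw [dist, hc, a2] at a1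
    linarith
  refine ⟨hD, fun ψ => ?_, fun s => ?_⟩
  · have a1 := level_two _ h hn (anti ψ)
    have a2 := level_two _ h' (hc ▸ hn) (anti ψ)
    rw [dist, hc, a2] at a1
    rw [pair_sum, pair_sum, a1, hD (fun d => anti ψ (2 * d))]
    congr 2
    rw [hD (fun d => ∑ v, anti ψ (d + dg (gr ends)ᶜ v))]
    exact sum_congr rfl fun u _ => hD (fun d => anti ψ (dg (gr ends')ᶜ u + d))
  · rw [compl_compl, compl_compl]
    exact cliq_eq ht hs hc s

end Pool.Agent.MP_f8284b_co
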