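import Pool.Agent.MP_f8284b_co.Rigid

set_option autoImplicit false

namespace Pool.Agent.MP_f8284b_co

open Finset SimpleGraph Classical

/-- The regular `2h × 2h` matrix with blocks `X`, its complement, its complement, `X`. -/
def BX (h : ℕ) (X : Finset (ℕ × ℕ)) (i j : ℕ) : Prop := (i % h, j % h) ∈ X ↔ (i < h ↔ j < h)

theorem half (h : ℕ) (p : ℕ → Prop) (hp : ∀ j < h, (p (h + j) ↔ ¬ p j)) :
    ((range (2 * h)).filter p).card = h := by
  rw [card_filter, two_mul, sum_range_add, ← sum_add_distrib,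
    sum_congr rfl (g := fun _ => 1) fun j hj => by
      rw [hp j (mem_range.1 hj)]
      split_ifs <;> rfl]
  simp

theorem reg_BX (h : ℕ) (X : Finset (ℕ × ℕ)) : Reg h (BX h X) := by
  constructor
  · refine fun i _ => half h _ fun j hj => ?_
    have : ¬ h + j < h := by omega
    simp only [BX, Nat.add_mod_left, hj, this]
    tauto
  · refine fun i _ => half h (fun j => BX h X j i) fun j hj => ?_
    have : ¬ h + j < h := by omega
    simp only [BX, Nat.add_mod_left, hj, this]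
    tauto

/-- An isomorphism of complements is an isomorphism. -/
def isoOfCompl {V W : Type} {G : SimpleGraph V} {H : SimpleGraph W} (e : Gᶜ ≃g Hᶜ) : G ≃g H :=
  ⟨e.toEquiv, fun {u v} => by
    by_cases huv : u = v
    · simp [huv]
    · have := e.map_rel_iff (a := u) (b := v)
      simp only [compl_adj, ne_eq, EmbeddingLike.apply_eq_iff_eq, huv, not_false_eq_true,
        true_and, not_iff_not] at this
      exact this⟩

theorem dv_le (h c i : ℕ) (hh : 0 < h) (hi : c = 4 → i < 2 * h) : dv h c i ≤ 35 * h - 1 := by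
  unfold dv
  split_ifs <;> omega

theorem tutteUnique_of_iso {n z h : ℕ} (hh : 3 ≤ h) (hn : 106 * h ≤ n) {B : ℕ → ℕ → Prop}
    (hB : Reg h B) {G : SimpleGraph (Fin n)} (e : Gᶜ ≃g FB z h B) : TutteUnique G := by
  intro W ε _ _ ends hi ht
  have hs : IsSimple (Subtype.val : G.edgeSet → Sym2 (Fin n)) :=
    ⟨Subtype.val_injective, fun a => G.not_isDiag_of_mem_edgeSet a.2⟩
  have hg : gr (Subtype.val : G.edgeSet → Sym2 (Fin n)) = G := by
    rw [gr, Subtype.range_coe, fromEdgeSet_edgeSet]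
  have hs' := simple_of_tutte ht.symm hs
  have H := inv_of_tutte ht.symm hs (Δ := 35 * h - 1) (fun v => by
    rw [hg, ← dg_iso e, dg_FB hB]
    refine dv_le _ _ _ (by omega) ?_
    rcases e v with i | i | i | i | i | i <;> simp [cl, ix]) (by simp; omega) hi
  rw [hg] at H
  obtain ⟨e'⟩ := rigid hB ((Inv.of_iso e).symm.trans H)
  let φ := isoOfCompl (e.trans e')
  let g : ε ≃ (gr ends).edgeSet := Equiv.ofBijective
    (fun a => ⟨ends a, by
      rw [gr, edgeSet_fromEdgeSet]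
      exact ⟨⟨a, rfl⟩, hs'.2 a⟩⟩)
    ⟨fun a b hab => hs'.1 (congrArg Subtype.val hab), fun ⟨s, hs⟩ => by
      rw [gr, edgeSet_fromEdgeSet] at hs
      obtain ⟨⟨a, rfl⟩, -⟩ := hs
      exact ⟨a, rfl⟩⟩
  exact ⟨φ.toEquiv, φ.mapEdgeSet.trans g.symm, fun a =>
    congrArg Subtype.val (g.apply_symm_apply (φ.mapEdgeSet a))⟩

theorem main (n h : ℕ) (hh : 3 ≤ h) (hn : 106 * h ≤ n) :
    ∃ S : Finset (SimpleGraph (Fin n)), S.card = 2 ^ (h ^ 2) ∧ (∀ G ∈ S, TutteUnique G) ∧
      ∀ G ∈ S, ∀ H ∈ S, Nonempty (G ≃g H) → G = H := by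
  obtain ⟨e⟩ : Nonempty (Fin n ≃ Vx (n - 39 * h) h) :=
    ⟨Fintype.equivOfCardEq (by simp; omega)⟩
  let Γ : Finset (ℕ × ℕ) → SimpleGraph (Fin n) := fun X => ((FB _ h (BX h X)).comap e)ᶜ
  have iso : ∀ X, Nonempty ((Γ X)ᶜ ≃g FB (n - 39 * h) h (BX h X)) := fun X => by
    simp only [Γ, compl_compl]
    exact ⟨Iso.comap e _⟩
  have inj : ∀ X ∈ (range h ×ˢ range h).powerset, ∀ Y ∈ (range h ×ˢ range h).powerset,
      Nonempty (Γ X ≃g Γ Y) → X = Y := by
    rintro X hX Y hY ⟨φ⟩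
    have ψ : (Γ X)ᶜ ≃g (Γ Y)ᶜ := isoOfCompl (by simpa only [compl_compl] using φ)
    have H := eq_of_inv (Inv.of_iso (((iso X).some.symm.trans ψ).trans (iso Y).some))
    have key : ∀ p ∈ range h ×ˢ range h, p ∈ X ↔ p ∈ Y := by
      rintro ⟨i, j⟩ hp
      simp only [mem_product, mem_range] at hp
      simpa [BX, Nat.mod_eq_of_lt, hp.1, hp.2] using H j (by omega) i (by omega)
    ext p
    exact ⟨fun a => (key p (mem_powerset.1 hX a)).1 a, fun a => (key p (mem_powerset.1 hY a)).2 a⟩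
  refine ⟨(range h ×ˢ range h).powerset.image Γ, ?_, ?_, ?_⟩
  · rw [card_image_of_injOn fun X hX Y hY c => inj X hX Y hY (by rw [c]; exact ⟨Iso.refl⟩)]
    simp [sq]
  · intro G hG
    obtain ⟨X, -, rfl⟩ := mem_image.1 hG
    exact tutteUnique_of_iso hh hn (reg_BX h X) (iso X).some
  · intro G hG H hH c
    obtain ⟨X, hX, rfl⟩ := mem_image.1 hG
    obtain ⟨Y, hY, rfl⟩ := mem_image.1 hH
    rw [inj X hX Y hY c]

end Pool.Agent.MP_f8284b_co
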