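import Pool.Agent.MP_f8284b_co.Main

set_option autoImplicit false

namespace Pool.Agent.MP_f8284b_co.ManyTutteUniqueOld

open Pool.Agent.MP_f8284b_co

/-- For every `n ≥ 318` there are `2 ^ (⌊n / 106⌋ ^ 2)` pairwise non-isomorphic Tutte unique simple
graphs on `n` vertices. -/
theorem result (n : ℕ) (hn : 318 ≤ n) :
    ∃ S : Finset (SimpleGraph (Fin n)), S.card = 2 ^ ((n / 106) ^ 2) ∧
      (∀ G ∈ S, TutteUnique G) ∧ ∀ G ∈ S, ∀ H ∈ S, Nonempty (G ≃g H) → G = H :=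
  main n (n / 106) (by omega) (by omega)

end Pool.Agent.MP_f8284b_co.ManyTutteUniqueOld
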