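import Pool.Agent.MP_f8284b_co.Family

set_option autoImplicit false

namespace Pool.Agent.MP_f8284b_co

open Finset SimpleGraph Classical Sum

variable {z h : ℕ}

/-- A vertex of the first clique. -/
abbrev vL (i : Fin (11 * h)) : Vx z h := inr (inr (inl i))
/-- A vertex of the second clique. -/
abbrev vR (i : Fin (16 * h)) : Vx z h := inr (inr (inr (inl i)))
/-- A vertex carrying a leaf. -/
abbrev vA (i : Fin (2 * h)) : Vx z h := inr (inr (inr (inr (inl i))))
/-- A leaf. -/
abbrev vP (i : Fin (2 * h)) : Vx z h := inr (inr (inr (inr (inr i))))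

/-- The adjacency table. -/
def adjT (B : ℕ → ℕ → Prop) : Vx z h → Vx z h → Prop
  | inr (inl i), inr (inr (inl j)) => 2 * h ≤ i + j + 1
  | inr (inr (inl i)), inr (inl j) => 2 * h ≤ j + i + 1
  | inr (inr (inl i)), inr (inr (inl j)) => i ≠ j
  | inr (inr (inr (inl i))), inr (inr (inr (inl j))) => i ≠ j
  | inr (inr (inl i)), inr (inr (inr (inl j))) => ¬ (i < 2 * h ∧ j < 2 * h ∧ B i j)
  | inr (inr (inr (inl i))), inr (inr (inl j)) => ¬ (j < 2 * h ∧ i < 2 * h ∧ B j i)
  | inr (inr (inr (inr (inl i)))), inr (inr (inr (inl j))) => 2 * h ≤ i + j + 1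
  | inr (inr (inr (inl i))), inr (inr (inr (inr (inl j)))) => 2 * h ≤ j + i + 1
  | inr (inr (inr (inr (inl i)))), inr (inr (inr (inr (inr j)))) => i = j
  | inr (inr (inr (inr (inr i)))), inr (inr (inr (inr (inl j)))) => j = i
  | _, _ => False

theorem adj_FB (B : ℕ → ℕ → Prop) (u v : Vx z h) : (FB z h B).Adj u v ↔ adjT B u v := by
  simp only [FB, fromRel_adj, rel]
  rcases u with i | i | i | i | i | i <;> rcases v with j | j | j | j | j | j <;>
    simp only [cl, ix, adjT] <;> simp [Fin.val_inj]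

theorem agree {B : ℕ → ℕ → Prop} (hB : Reg h B) {F' : SimpleGraph (Vx z h)}
    (hI : Inv (FB z h B) F') (hd : ∀ v, dg F' v = dg (FB z h B) v) (u v : Vx z h)
    (hf : ¬ Free h (cl u) (ix u) (cl v) (ix v)) : F'.Adj u v ↔ (FB z h B).Adj u v := by
  refine lp hI hd (psi h) (fun v => theta h (cl v) (ix v)) (fun u v a => ?_) (fun u v a b => ?_)
    u v (fun b => ?_)
  · rw [dg_FB hB, dg_FB hB]
    obtain ⟨s1, s2, -⟩ := signs B u v a.ne
    by_cases c : Free h (cl u) (ix u) (cl v) (ix v)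
    · exact (s1 c).ge
    · exact (s2 c a).le
  · rw [dg_FB hB, dg_FB hB]
    obtain ⟨s1, -, s3⟩ := signs B u v b
    by_cases c : Free h (cl u) (ix u) (cl v) (ix v)
    · exact (s1 c).le
    · exact (s3 c a).le
  · rw [dg_FB hB, dg_FB hB]
    obtain ⟨-, s2, s3⟩ := signs B u v b
    by_cases a : (FB z h B).Adj u v
    · exact (s2 hf a).ne'
    · exact (s3 hf a).ne

theorem shape {B : ℕ → ℕ → Prop} (hB : Reg h B) {F' : SimpleGraph (Vx z h)}
    (hI : Inv (FB z h B) F') (hd : ∀ v, dg F' v = dg (FB z h B) v) :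
    ∃ B' : ℕ → ℕ → Prop, Nonempty (FB z h B' ≃g F') := by
  have hag := agree hB hI hd
  have h1 : ∀ t, ∃ s, ∀ s', F'.Adj (vA t) (vP s') ↔ s' = s := by
    intro t
    have a1 := card_nbr_eq (vA t) (hd _) (univ.filter fun w => cl w = 5) (fun u hu => hag _ _ (by
      have : cl u ≠ 5 := by simpa using hu
      simp only [Free, show cl (vA t : Vx z h) = 4 from rfl]
      omega))
    have a2 : ((univ.filter fun w => cl w = 5).filter ((FB z h B).Adj (vA t))) = {vP t} := by
      ext w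
      simp only [mem_filter, mem_univ, true_and, adj_FB, mem_singleton]
      rcases w with i | i | i | i | i | i <;> simp only [adjT, cl] <;> simp [@eq_comm _ t]
    rw [a2, card_singleton, card_eq_one] at a1
    obtain ⟨a, ha⟩ := a1
    have a3 : ∀ w, cl w = 5 ∧ F'.Adj (vA t) w ↔ w = a := fun w => by
      simpa using Finset.ext_iff.1 ha w
    have a4 := ((a3 a).2 rfl).1
    rcases a with i | i | i | i | i | i <;> simp only [cl] at a4 <;> try omega
    exact ⟨i, fun s' => by simpa [cl] using a3 (vP s')⟩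
  choose π hπ using h1
  have h2 : Function.Injective π := by
    intro t t' e
    have a1 := (hd (vP (π t))).trans (dg_FB hB _)
    have a2 := card_le_one.1 (show dg F' (vP (π t)) ≤ 1 from a1.le) (vA t)
      (mem_filter.2 ⟨mem_univ _, ((hπ _ _).2 rfl).symm⟩) (vA t')
      (mem_filter.2 ⟨mem_univ _, ((hπ _ _).2 e).symm⟩)
    simpa using a2
  let σ := Equiv.ofBijective π (Finite.injective_iff_bijective.1 h2)
  have hσ : ∀ t s, F'.Adj (vA t) (vP (σ s)) ↔ s = t := fun t s => (hπ t _).trans h2.eq_iff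
  refine ⟨fun i j => ∀ (a : Fin (11 * h)) (b : Fin (16 * h)), a = i → b = j →
    ¬ F'.Adj (vL a) (vR b), ⟨⟨(Equiv.refl _).sumCongr ((Equiv.refl _).sumCongr
      ((Equiv.refl _).sumCongr ((Equiv.refl _).sumCongr ((Equiv.refl _).sumCongr σ)))), ?_⟩⟩⟩
  have hLR : ∀ (i : Fin (11 * h)) (j : Fin (16 * h)),
      F'.Adj (vL i) (vR j) ↔ (i < 2 * h → j < 2 * h → F'.Adj (vL i) (vR j)) := by
    intro i j
    by_cases c : i < 2 * h ∧ j < 2 * h
    · simp [c.1, c.2]
    · rw [hag _ _ (by simpa [Free, cl, ix] using c)]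
      simp only [adj_FB, adjT]
      tauto
  intro u v
  rcases u with i | i | i | i | i | i <;> rcases v with j | j | j | j | j | j <;>
    simp only [Equiv.sumCongr_apply, Sum.map_inl, Sum.map_inr, Equiv.coe_refl, id] <;>
    first
    | (refine (hag _ _ ?_).trans ?_
       · simp only [Free, cl]
         omega
       · simp only [adj_FB, adjT])
    | skip
  · simpa [adj_FB, adjT, Fin.val_inj] using hLR i j
  · rw [F'.adj_comm]
    simpa [adj_FB, adjT, Fin.val_inj] using hLR j i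
  · rw [hσ, adj_FB, eq_comm]
    rfl
  · rw [F'.adj_comm, hσ, adj_FB, eq_comm]
    rfl

theorem ind_FB (B : ℕ → ℕ → Prop) (S : Finset (Vx z h)) :
    Ind (FB z h B) S ↔ Ind (FB z h fun _ _ => True) S ∧
      ∀ (a : Fin (11 * h)) (b : Fin (16 * h)), vL a ∈ S → vR b ∈ S → B a b := by
  have key : ∀ u v, (FB z h B).Adj u v ↔ (FB z h fun _ _ => True).Adj u v ∨
      ∃ (a : Fin (11 * h)) (b : Fin (16 * h)), ¬ B a b ∧
        ((u = vL a ∧ v = vR b) ∨ (u = vR b ∧ v = vL a)) := by
    intro u v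
    rcases u with i | i | i | i | i | i <;> rcases v with j | j | j | j | j | j <;>
      simp only [adj_FB, adjT] <;> simp [- not_and] <;> tauto
  simp only [Ind, key, not_or]
  constructor
  · intro H
    refine ⟨fun u hu v hv => (H u hu v hv).1, fun a b ha hb => ?_⟩
    by_contra c
    exact (H _ ha _ hb).2 ⟨a, b, c, Or.inl ⟨rfl, rfl⟩⟩
  · rintro ⟨H1, H2⟩ u hu v hv
    refine ⟨H1 u hu v hv, ?_⟩
    rintro ⟨a, b, c, ⟨rfl, rfl⟩ | ⟨rfl, rfl⟩⟩
    · exact c (H2 a b hu hv)
    · exact c (H2 a b hv hu)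

variable {R : Type} [CommRing R]

theorem ip_cell (x : R) (i j : Fin (2 * h)) :
    ∑ S : Finset (Vx z h), (if vL (i.castLE (by omega)) ∈ S ∧ vR (j.castLE (by omega)) ∈ S ∧
      Ind (FB z h fun _ _ => True) S then x ^ S.card else 0) =
    x ^ 2 * ((1 + x) ^ (z + (2 * h - 1 - i) + (j + 1)) * (1 + 2 * x) ^ (2 * h - 1 - j)) := by
  have hi := i.2
  have hj := j.2
  let T : Finset (Fin (2 * h)) := univ.filter fun t => t + j + 1 < 2 * h
  let I : Finset (Vx z h) := univ.filter fun w =>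
    cl w = 0 ∨ (cl w = 1 ∧ ix w + i + 1 < 2 * h) ∨ (cl w = 5 ∧ 2 * h ≤ ix w + j + 1)
  have cT : T.card = 2 * h - 1 - j := by
    rw [cnt_lt _ (2 * h - 1 - j) _ fun x => by omega]
    omega
  have cI : I.card = z + (2 * h - 1 - i) + (j + 1) := by
    rw [card_filter]
    simp only [Fintype.sum_sum_type]
    simp [cl, ix]
    rw [cnt_lt _ (2 * h - 1 - i) _ fun x => by omega, cnt_ge _ (2 * h - 1 - j) _ fun x => by omega]
    omega
  have mI : ∀ w, w ∈ I ↔ cl w = 0 ∨ (cl w = 1 ∧ ix w + i + 1 < 2 * h) ∨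
      (cl w = 5 ∧ 2 * h ≤ ix w + j + 1) := fun w => by simp only [I, mem_filter, mem_univ, true_and]
  have mT : ∀ w : Vx z h, w ∈ T.image vA ∪ T.image vP ↔
      (cl w = 4 ∨ cl w = 5) ∧ ix w + j + 1 < 2 * h := by
    intro w
    simp only [T, mem_union, mem_image, mem_filter, mem_univ, true_and]
    constructor
    · rintro (⟨t, ht, rfl⟩ | ⟨t, ht, rfl⟩)
      · exact ⟨Or.inl rfl, ht⟩
      · exact ⟨Or.inr rfl, ht⟩
    · rintro ⟨h1, h2⟩
      rcases w with k | k | k | k | k | k <;> simp only [cl] at h1 <;> try omega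
      · exact Or.inl ⟨k, h2, rfl⟩
      · exact Or.inr ⟨k, h2, rfl⟩
  have e := ip_pair (FB z h fun _ _ => True) x (u := vL (i.castLE (by omega)))
    (v := vR (j.castLE (by omega))) (by simp) (by simp [adj_FB, adjT])
    (I ∪ (T.image vA ∪ T.image vP)) (by
      intro w
      rw [mem_union, mI, mT, adj_FB, adj_FB]
      rcases w with k | k | k | k | k | k <;> simp only [adjT, cl, ix] <;> simp <;> omega)
  rw [ip_isolated, ip_matching, cT, cI] at e
  · convert e
  · intro s t; simp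
  · intro s t; simp
  · intro s t; simp
  · intro s t; simp only [adj_FB, adjT]
  · intro s t; simp [adj_FB, adjT]
  · intro s t; simp [adj_FB, adjT]
  · rw [Finset.disjoint_left]
    intro w
    rw [mI, mT]
    omega
  · intro u hu v hv
    rw [mem_union, mI, mT] at hv
    rw [mI] at hu
    rw [adj_FB]
    rcases u with k | k | k | k | k | k <;> rcases v with l | l | l | l | l | l <;>
      simp only [adjT, cl, ix, Fin.ext_iff, not_false_eq_true, ne_eq] at hu hv ⊢ <;> omega

theorem ip_FB (B : ℕ → ℕ → Prop) (x : R) :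
    ip (FB z h B) x univ = ip (FB z h fun _ _ => False) x univ +
      ∑ i ∈ range (2 * h), ∑ j ∈ range (2 * h), (if B i j then x ^ 2 *
        ((1 + x) ^ (z + (2 * h - 1 - i) + (j + 1)) * (1 + 2 * x) ^ (2 * h - 1 - j)) else 0) := by
  simp only [sum_range, ← ip_cell, ip, powerset_univ]
  have e : ∀ (c : Prop) (f : Finset (Vx z h) → R),
      (if c then ∑ S, f S else 0) = ∑ S, if c then f S else 0 := fun c f => by
    split_ifs <;> simp
  simp only [e]
  rw [sum_congr rfl fun i _ => sum_comm, sum_comm, ← sum_add_distrib]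
  refine sum_congr rfl fun S _ => ?_
  rw [ind_FB B, ind_FB fun _ _ => False]
  by_cases hS : Ind (FB z h fun _ _ => True) S
  swap
  · simp [hS]
  by_cases hx : ∃ a b, vL a ∈ S ∧ vR b ∈ S
  · obtain ⟨a, b, ha, hb⟩ := hx
    have a1 : a < 2 * h ∧ b < 2 * h := by simpa [adj_FB, adjT] using hS _ ha _ hb
    have a2 : ∀ a', vL a' ∈ S → a' = a := fun a' ha' => by
      simpa [adj_FB, adjT] using hS _ ha' _ ha
    have a3 : ∀ b', vR b' ∈ S → b' = b := fun b' hb' => by
      simpa [adj_FB, adjT] using hS _ hb' _ hb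
    rw [sum_eq_single ⟨a, a1.1⟩, sum_eq_single ⟨b, a1.2⟩, 
      if_neg (c := _ ∧ ∀ a b, vL a ∈ S → vR b ∈ S → False) (fun c => c.2 a b ha hb), zero_add]
    · have : (∀ (a : Fin (11 * h)) (b : Fin (16 * h)), vL a ∈ S → vR b ∈ S → B a b) ↔ B a b :=
        ⟨fun c => c a b ha hb, fun c a' b' ha' hb' => by rwa [a2 a' ha', a3 b' hb']⟩
      simp [this, hS, ha, hb]
    · intro j _ hj
      rw [if_neg (c := _ ∧ _ ∧ _) fun c => hj (Fin.ext (congrArg Fin.val (a3 _ c.2.1) :)), ite_self]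
    · simp
    · intro i _ hi
      refine sum_eq_zero fun j _ => ?_
      rw [if_neg (c := _ ∧ _) fun c => hi (Fin.ext (congrArg Fin.val (a2 _ c.1) :)), ite_self]
    · simp
  · rw [if_pos ⟨hS, fun a b ha hb => absurd ⟨a, b, ha, hb⟩ hx⟩,
      if_pos ⟨hS, fun a b ha hb => absurd ⟨a, b, ha, hb⟩ hx⟩, sum_eq_zero, add_zero]
    refine fun i _ => sum_eq_zero fun j _ => ?_
    split_ifs with c1 c
    · exact absurd ⟨_, _, c.1, c.2.1⟩ hx
    · rfl
    · rfl

theorem eq_of_inv {B B' : ℕ → ℕ → Prop} (H : Inv (FB z h B) (FB z h B')) :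
    ∀ j < 2 * h, ∀ i < 2 * h, (B i j ↔ B' i j) :=
  decode (2 * h) z B B' fun x => by
    have := H.ip_eq x
    rw [ip_FB B, ip_FB B'] at this
    exact add_left_cancel this

theorem rigid {B : ℕ → ℕ → Prop} (hB : Reg h B) {W : Type} [Fintype W] {F' : SimpleGraph W}
    (H : Inv (FB z h B) F') : Nonempty (FB z h B ≃g F') := by
  obtain ⟨e, he⟩ := H.exists_equiv
  have i1 := Iso.comap e F'
  have H1 := H.trans (Inv.of_iso (Iso.comap e F')).symm
  obtain ⟨B', ⟨i2⟩⟩ := shape hB H1 fun v => (dg_iso (Iso.comap e F') v).symm.trans (he v)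
  have H2 := eq_of_inv (H1.trans (Inv.of_iso i2).symm)
  have : FB z h B = FB z h B' := by
    have : rel h B = rel h B' := by
      funext c i d j
      have : (i < 2 * h ∧ j < 2 * h ∧ B i j) ↔ (i < 2 * h ∧ j < 2 * h ∧ B' i j) :=
        and_congr_right fun hi => and_congr_right fun hj => H2 j hj i hi
      rw [rel, rel, this]
    rw [FB, FB, this]
  rw [this]
  exact ⟨i2.trans i1⟩

end Pool.Agent.MP_f8284b_co
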